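import Pool.Agent.Helper19.Un.Lib

set_option autoImplicit false

/-!
# Algebra of the action on the Siegel domain
-/

namespace Pool.Agent.Helper19.Un

open MeasureTheory Topology
open scoped ComplexConjugate

variable {m : ℕ}

theorem inner_self_c (x : E m) : inner ℂ x x = ((‖x‖ ^ 2 : ℝ) : ℂ) := by
  rw [inner_self_eq_norm_sq_to_K]; push_cast; rfl

theorem inner_conj (x y : E m) : conj (inner ℂ x y) = inner ℂ y x := inner_conj_symm y x

theorem norm_add_sq_c (x y : E m) :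
    ‖x + y‖ ^ 2 = ‖x‖ ^ 2 + 2 * (inner ℂ x y).re + ‖y‖ ^ 2 := by
  have := norm_add_sq (𝕜 := ℂ) x y
  simpa using this

theorem norm_sub_sq_c (x y : E m) :
    ‖x - y‖ ^ 2 = ‖x‖ ^ 2 - 2 * (inner ℂ x y).re + ‖y‖ ^ 2 := by
  have := norm_sub_sq (𝕜 := ℂ) x y
  simpa using this

theorem herm_vec (p : Pt m) : herm (vec p) (vec p) = -(hgt p : ℂ) := by
  simp only [herm, vec, hgt, inner_self_c, map_one, mul_one, one_mul]
  push_cast
  rw [neg_neg, show (2 : ℂ) * (p.1.re : ℂ) = p.1 + conj p.1 by rw [Complex.add_conj]; push_cast; ring]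
  ring

theorem herm_add_left (x y z : V m) : herm (x + y) z = herm x z + herm y z := by
  simp only [herm, Prod.fst_add, Prod.snd_add, inner_add_right]
  ring

theorem herm_add_right (x y z : V m) : herm x (y + z) = herm x y + herm x z := by
  simp only [herm, Prod.fst_add, Prod.snd_add, inner_add_left, map_add]
  ring

theorem herm_smul_left (c : ℂ) (x y : V m) : herm (c • x) y = c * herm x y := by
  simp only [herm, Prod.smul_fst, Prod.smul_snd, smul_eq_mul, inner_smul_right]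
  ring

theorem herm_smul_right (c : ℂ) (x y : V m) : herm x (c • y) = conj c * herm x y := by
  simp only [herm, Prod.smul_fst, Prod.smul_snd, smul_eq_mul, map_mul, inner_smul_left]
  ring

theorem herm_neg_left (x y : V m) : herm (-x) y = -herm x y := by
  have := herm_smul_left (-1) x y
  simpa using this

theorem herm_neg_right (x y : V m) : herm x (-y) = -herm x y := by
  have := herm_smul_right (-1) x y
  simpa using this

theorem herm_sub_left (x y z : V m) : herm (x - y) z = herm x z - herm y z := by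
  rw [sub_eq_add_neg, herm_add_left, herm_neg_left, sub_eq_add_neg]

theorem herm_sub_right (x y z : V m) : herm x (y - z) = herm x y - herm x z := by
  rw [sub_eq_add_neg, herm_add_right, herm_neg_right, sub_eq_add_neg]

theorem herm_conj (x y : V m) : conj (herm x y) = herm y x := by
  simp only [herm, map_add, map_mul, Complex.conj_conj, inner_conj]
  ring

theorem herm_self_re (x : V m) : (herm x x).re = 2 * (x.1 * conj x.2.2).re + ‖x.2.1‖ ^ 2 := by
  have : (x.2.2 * conj x.1).re = (x.1 * conj x.2.2).re := by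
    simp only [Complex.mul_re, Complex.conj_re, Complex.conj_im]; ring
  simp only [herm, inner_self_c, Complex.add_re, Complex.ofReal_re, this]
  ring

/-- the third coordinate of `g (vec p)` does not vanish -/
theorem x3_ne {g : V m ≃ₗ[ℂ] V m} (hg : g ∈ UG m) {p : Pt m} (hp : p ∈ SD m) :
    (g (vec p)).2.2 ≠ 0 := by
  intro h
  have h1 := hg (vec p) (vec p)
  rw [herm_vec] at h1
  have h2 : (herm (g (vec p)) (g (vec p))).re = ‖(g (vec p)).2.1‖ ^ 2 := by
    rw [herm_self_re, h]; simp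
  rw [h1] at h2
  have h3 : 0 < hgt p := hp
  have h4 := sq_nonneg ‖(g (vec p)).2.1‖
  rw [← h2] at h4
  simp at h4
  linarith

theorem vec_act {g : V m ≃ₗ[ℂ] V m} (hg : g ∈ UG m) {p : Pt m} (hp : p ∈ SD m) :
    g (vec p) = (g (vec p)).2.2 • vec (act g p) := by
  have h := x3_ne hg hp
  refine Prod.ext ?_ (Prod.ext ?_ ?_)
  · change (g (vec p)).1 = (g (vec p)).2.2 * ((g (vec p)).1 / (g (vec p)).2.2)
    field_simp
  · change (g (vec p)).2.1 = (g (vec p)).2.2 • ((1 / (g (vec p)).2.2) • (g (vec p)).2.1)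
    rw [smul_smul, mul_one_div_cancel h, one_smul]
  · change (g (vec p)).2.2 = (g (vec p)).2.2 * 1
    rw [mul_one]

theorem hgt_act {g : V m ≃ₗ[ℂ] V m} (hg : g ∈ UG m) {p : Pt m} (hp : p ∈ SD m) :
    hgt (act g p) = hgt p / ‖(g (vec p)).2.2‖ ^ 2 := by
  have h := x3_ne hg hp
  have h1 := hg (vec p) (vec p)
  rw [herm_vec, vec_act hg hp, herm_smul_left, herm_smul_right, herm_vec] at h1
  have h2 : ‖(g (vec p)).2.2‖ ^ 2 ≠ 0 := pow_ne_zero 2 (norm_ne_zero_iff.2 h)
  rw [eq_div_iff h2]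
  have h3 : ((hgt (act g p) * ‖(g (vec p)).2.2‖ ^ 2 : ℝ) : ℂ) = (hgt p : ℂ) := by
    push_cast
    rw [← Complex.mul_conj']
    linear_combination -h1
  exact_mod_cast h3

theorem act_mem {g : V m ≃ₗ[ℂ] V m} (hg : g ∈ UG m) {p : Pt m} (hp : p ∈ SD m) :
    act g p ∈ SD m := by
  have h := x3_ne hg hp
  have h2 : 0 < ‖(g (vec p)).2.2‖ ^ 2 := pow_pos (norm_pos_iff.2 h) 2
  have h3 : 0 < hgt p := hp
  change 0 < hgt (act g p)
  rw [hgt_act hg hp]
  positivity

theorem pnt_smul {c : ℂ} (hc : c ≠ 0) (x : V m) : pnt (c • x) = pnt x := by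
  refine Prod.ext ?_ ?_
  · change (c * x.1) / (c * x.2.2) = x.1 / x.2.2
    exact mul_div_mul_left _ _ hc
  · change (1 / (c * x.2.2)) • (c • x.2.1) = (1 / x.2.2) • x.2.1
    rw [smul_smul]
    congr 1
    by_cases h : x.2.2 = 0
    · simp [h]
    · field_simp

theorem pnt_vec (p : Pt m) : pnt (vec p) = p := by
  refine Prod.ext ?_ ?_
  · change p.1 / 1 = p.1
    exact div_one _
  · change (1 / (1 : ℂ)) • p.2 = p.2
    rw [div_one, one_smul]

theorem act_mul (g : V m ≃ₗ[ℂ] V m) {h : V m ≃ₗ[ℂ] V m} (hh : h ∈ UG m) {p : Pt m}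
    (hp : p ∈ SD m) : act (g * h) p = act g (act h p) := by
  change pnt (g (h (vec p))) = pnt (g (vec (act h p)))
  rw [vec_act hh hp, map_smul, pnt_smul (x3_ne hh hp)]

theorem act_one (p : Pt m) : act (1 : V m ≃ₗ[ℂ] V m) p = p := pnt_vec p

theorem act_inv_act {g : V m ≃ₗ[ℂ] V m} (hg : g ∈ UG m) {p : Pt m} (hp : p ∈ SD m) :
    act g⁻¹ (act g p) = p := by
  rw [← act_mul _ hg hp, inv_mul_cancel, act_one]

theorem act_act_inv {g : V m ≃ₗ[ℂ] V m} (hg : g ∈ UG m) {p : Pt m} (hp : p ∈ SD m) :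
    act g (act g⁻¹ p) = p := by
  rw [← act_mul _ ((UG m).inv_mem hg) hp, mul_inv_cancel, act_one]

theorem act_T (a : ℂ) (b : E m) (p : Pt m) :
    act (T a b) p = (p.1 - inner ℂ b p.2 + a, p.2 + b) := by
  refine Prod.ext ?_ ?_
  · change (p.1 - inner ℂ b p.2 + a * 1) / 1 = p.1 - inner ℂ b p.2 + a
    rw [mul_one, div_one]
  · change (1 / (1 : ℂ)) • (p.2 + (1 : ℂ) • b) = p.2 + b
    rw [div_one, one_smul, one_smul]

theorem T_apply (a : ℂ) (b : E m) (x : V m) :
    T a b x = (x.1 - inner ℂ b x.2.1 + a * x.2.2, x.2.1 + x.2.2 • b, x.2.2) := rfl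

theorem add_conj_of {a : ℂ} {b : E m} (h : 2 * a.re + ‖b‖ ^ 2 = 0) :
    a + conj a + inner ℂ b b = 0 := by
  rw [Complex.add_conj, inner_self_c]
  have : ((2 * a.re + ‖b‖ ^ 2 : ℝ) : ℂ) = 0 := by rw [h]; simp
  rw [← this]
  push_cast
  ring

theorem re_norm {a : ℂ} {b : E m} (h : a + conj a + inner ℂ b b = 0) :
    2 * a.re + ‖b‖ ^ 2 = 0 := by
  rw [Complex.add_conj, inner_self_c] at h
  exact_mod_cast h

theorem T_mem_UG {a : ℂ} {b : E m} (h : 2 * a.re + ‖b‖ ^ 2 = 0) : T a b ∈ UG m := by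
  intro x y
  rw [T_apply, T_apply]
  unfold herm
  dsimp only
  simp only [map_add, map_sub, map_mul, inner_add_left, inner_add_right, inner_smul_left,
    inner_smul_right, inner_conj]
  linear_combination (x.2.2 * conj y.2.2) * add_conj_of h

theorem hgt_T {a : ℂ} {b : E m} (h : 2 * a.re + ‖b‖ ^ 2 = 0) (p : Pt m) :
    hgt (act (T a b) p) = hgt p := by
  rw [act_T]
  simp only [hgt, norm_add_sq_c, Complex.add_re, Complex.sub_re]
  have : (inner ℂ p.2 b).re = (inner ℂ b p.2).re := by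
    rw [← inner_conj b p.2, Complex.conj_re]
  rw [this]
  linear_combination (-1) * h

/-- products of Heisenberg translations -/
theorem T_mul (a : ℂ) (b : E m) (a' : ℂ) (b' : E m) :
    T a b * T a' b' = T (a + a' - inner ℂ b b') (b + b') := by
  refine LinearEquiv.ext fun x => Prod.ext ?_ (Prod.ext ?_ ?_)
  · change (T a b (T a' b' x)).1 = (T (a + a' - inner ℂ b b') (b + b') x).1
    rw [T_apply a b, T_apply a' b', T_apply]
    simp only [inner_add_right, inner_add_left, inner_smul_right]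
    ring
  · change (T a b (T a' b' x)).2.1 = (T (a + a' - inner ℂ b b') (b + b') x).2.1
    rw [T_apply a b, T_apply a' b', T_apply]
    simp only [smul_add]
    abel
  · rfl

theorem T_zero : T (0 : ℂ) (0 : E m) = 1 := by
  refine LinearEquiv.ext fun x => Prod.ext ?_ (Prod.ext ?_ ?_)
  · change x.1 - inner ℂ (0 : E m) x.2.1 + 0 * x.2.2 = x.1
    simp
  · change x.2.1 + x.2.2 • (0 : E m) = x.2.1
    simp
  · rfl

theorem T_inv {a : ℂ} {b : E m} (h : 2 * a.re + ‖b‖ ^ 2 = 0) :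
    T (conj a) (-b) = (T a b)⁻¹ := by
  rw [eq_inv_iff_mul_eq_one, T_mul]
  have h1 := add_conj_of h
  have e1 : conj a + a - inner ℂ (-b) b = 0 := by
    rw [inner_neg_left]
    linear_combination h1
  have e2 : -b + b = 0 := by abel
  rw [e1, e2, T_zero]

theorem T_w0 (a : ℂ) (b : E m) : T a b w0 = w0 := by
  refine Prod.ext ?_ (Prod.ext ?_ ?_)
  · change (1 : ℂ) - inner ℂ b (0 : E m) + a * 0 = 1
    simp
  · change (0 : E m) + (0 : ℂ) • b = 0
    simp
  · rfl

theorem uval_act {g : V m ≃ₗ[ℂ] V m} (hg : g ∈ UG m) (w : V m) {p : Pt m} (hp : p ∈ SD m) :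
    uval w (act g p) = uval (g⁻¹ w) p := by
  have h := x3_ne hg hp
  have h1 : herm (vec p) (g⁻¹ w) = (g (vec p)).2.2 * herm (vec (act g p)) w := by
    rw [← hg (vec p) (g⁻¹ w), ← herm_smul_left, ← vec_act hg hp]
    have key : g (g⁻¹ w) = w := g.apply_symm_apply w
    rw [key]
  unfold uval
  rw [h1, hgt_act hg hp, norm_mul, mul_pow]
  have h2 : ‖(g (vec p)).2.2‖ ≠ 0 := norm_ne_zero_iff.2 h
  have h3 : hgt p ≠ 0 := (show 0 < hgt p from hp).ne'
  field_simp

theorem uval_w0 (p : Pt m) : uval w0 p = 1 / hgt p := by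
  have : herm (vec p) (w0 : V m) = 1 := by
    simp [herm, vec, w0]
  unfold uval
  rw [this]
  simp

theorem uval_smul (c : ℂ) (w : V m) (p : Pt m) : uval (c • w) p = ‖c‖ ^ 2 * uval w p := by
  unfold uval
  rw [herm_smul_right, norm_mul, mul_pow, RCLike.norm_conj]
  ring

theorem uval_pos {M : AddSubgroup (V m)} {w : V m} (hw : w ∈ Orb M) {p : Pt m} (hp : p ∈ SD m) :
    0 < uval w p := by
  obtain ⟨γ, hγ, rfl⟩ := hw
  have hγ' : γ⁻¹ ∈ Gam M := (Gam M).inv_mem hγ
  have h1 := uval_act hγ'.1 w0 hp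
  rw [inv_inv] at h1
  rw [← h1, uval_w0]
  have : 0 < hgt (act γ⁻¹ p) := act_mem hγ'.1 hp
  positivity

theorem Orb_smul {M : AddSubgroup (V m)} {γ : V m ≃ₗ[ℂ] V m} (hγ : γ ∈ Gam M) {w : V m}
    (hw : w ∈ Orb M) : γ w ∈ Orb M := by
  obtain ⟨g, hg, rfl⟩ := hw
  exact ⟨γ * g, (Gam M).mul_mem hγ hg, rfl⟩

theorem w0_mem (M : AddSubgroup (V m)) : w0 ∈ Orb M := ⟨1, (Gam M).one_mem, rfl⟩

/-- the vectors of the orbit are isotropic -/
theorem herm_Orb {M : AddSubgroup (V m)} {w : V m} (hw : w ∈ Orb M) : herm w w = 0 := by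
  obtain ⟨γ, hγ, rfl⟩ := hw
  rw [hγ.1]
  simp [herm, w0]

/-- identity behind the reverse Cauchy-Schwarz inequality -/
theorem rcs_id (v : V m) (p : Pt m) : hgt p * (herm v v).re + ‖herm (vec p) v‖ ^ 2 =
    hgt p * ‖v.2.1 - v.2.2 • p.2‖ ^ 2 + ‖(hgt p : ℂ) * v.2.2 + conj (herm (vec p) v)‖ ^ 2 := by
  have e1 : ‖v.2.1 - v.2.2 • p.2‖ ^ 2
      = ‖v.2.1‖ ^ 2 - 2 * (v.2.2 * inner ℂ v.2.1 p.2).re + ‖v.2.2‖ ^ 2 * ‖p.2‖ ^ 2 := by
    rw [norm_sub_sq_c, inner_smul_right, norm_smul, mul_pow]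
  have e2 : conj (herm (vec p) v)
      = v.2.2 * conj p.1 + conj (inner ℂ v.2.1 p.2) + v.1 := by
    simp only [herm, vec, map_add, map_mul, Complex.conj_conj, one_mul]
    ring
  have e3 : ‖herm (vec p) v‖ = ‖conj (herm (vec p) v)‖ := (RCLike.norm_conj _).symm
  rw [e3, e2, e1, herm_self_re]
  unfold hgt
  generalize inner ℂ v.2.1 p.2 = w
  generalize ‖v.2.1‖ ^ 2 = A
  generalize ‖p.2‖ ^ 2 = B
  generalize v.2.2 = t
  generalize v.1 = s
  generalize p.1 = z
  simp only [Complex.sq_norm, Complex.normSq_apply]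
  simp
  ring

/-- reverse Cauchy-Schwarz inequality -/
theorem rcs (v : V m) {p : Pt m} (hp : p ∈ SD m) :
    -(herm v v).re ≤ ‖herm (vec p) v‖ ^ 2 / hgt p := by
  have hu : 0 < hgt p := hp
  rw [le_div_iff₀ hu]
  have key := rcs_id v p
  have h1 : 0 ≤ hgt p * ‖v.2.1 - v.2.2 • p.2‖ ^ 2 := by positivity
  have h2 : 0 ≤ ‖(hgt p : ℂ) * v.2.2 + conj (herm (vec p) v)‖ ^ 2 := sq_nonneg _
  nlinarith

/-! ### Elementary facts -/

theorem continuous_hgt : Continuous (hgt : Pt m → ℝ) := by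
  unfold hgt
  exact ((continuous_const.mul (Complex.continuous_re.comp continuous_fst)).add
    (continuous_snd.norm.pow 2)).neg

theorem isOpen_SD : IsOpen (SD m) := isOpen_lt continuous_const continuous_hgt

theorem measurableSet_SD : MeasurableSet (SD m) := isOpen_SD.measurableSet

theorem measurable_hgt : Measurable (hgt : Pt m → ℝ) := continuous_hgt.measurable

theorem ae_hyp_mem : ∀ᵐ p ∂(hyp m), p ∈ SD m :=
  (withDensity_absolutelyContinuous _ _).ae_le (ae_restrict_mem measurableSet_SD)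

theorem measurableSet_Sieg (C a : ℝ) : MeasurableSet (Sieg m C a) := by
  have : Sieg m C a = {p : Pt m | ‖p.2‖ ≤ C} ∩ ({p : Pt m | |p.1.im| ≤ C} ∩
      {p : Pt m | a ≤ hgt p}) := rfl
  rw [this]
  exact (measurableSet_le measurable_snd.norm measurable_const).inter
    ((measurableSet_le (Complex.measurable_im.comp measurable_fst).abs measurable_const).inter
      (measurableSet_le measurable_const measurable_hgt))

theorem hgt_cellpt (β : Fin (2 * m) → E m) (c : ℝ) (x : (Fin (2 * m) → ℝ) × ℝ) (u : ℝ) :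
    hgt (cellpt β c x u) = u := by
  unfold hgt cellpt
  simp only
  ring

end Pool.Agent.Helper19.Un
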