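import Pool.Agent.Helper19.Un.All0
import Pool.Agent.Helper34.Un.UNF
import Pool.Agent.Helper34.Un.CELLD
import Pool.Agent.Helper34.Un.CELLI

set_option autoImplicit false

/-!
# Assembly of the modules
-/

namespace Pool.Agent.Helper19.Un

theorem main_all : ST_MAIN :=
  main_all0 st_CELLD st_CELLI (st_UNF st_CNT st_ME st_MP)

end Pool.Agent.Helper19.Un
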