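import Pool.Agent.Helper19.Un.Stmts

set_option autoImplicit false

/-!
# The Eisenstein lattice over `D₄` : definitions and statements of the modules of part B
-/

namespace Pool.Agent.Helper19.Un

open MeasureTheory Topology
open scoped ComplexConjugate

/-- the primitive third root of unity `ω` -/
noncomputable def om : ℂ := ⟨-1 / 2, Real.sqrt 3 / 2⟩

/-- `√-3` -/
noncomputable def th : ℂ := ⟨0, Real.sqrt 3⟩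

/-- the Eisenstein integers `ℤ + ℤ ω` -/
noncomputable def Eis : AddSubgroup ℂ where
  carrier := {x | ∃ a b : ℤ, x = a + b * om}
  add_mem' := by
    rintro x y ⟨a, b, rfl⟩ ⟨c, d, rfl⟩
    exact ⟨a + c, b + d, by push_cast; ring⟩
  zero_mem' := ⟨0, 0, by simp⟩
  neg_mem' := by
    rintro x ⟨a, b, rfl⟩
    exact ⟨-a, -b, by push_cast; ring⟩

/-- the Eisenstein lattice `{(X, √2 Y) : X ≡ Y mod √-3}` (a scaled `D₄`) -/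
noncomputable def D4L : AddSubgroup (E 2) where
  carrier := {ζ | ∃ X ∈ Eis, ∃ Y ∈ Eis, ∃ k ∈ Eis, X - Y = th * k ∧ ζ 0 = X ∧
    ζ 1 = (Real.sqrt 2 : ℂ) * Y}
  add_mem' := by
    rintro x y ⟨X, hX, Y, hY, k, hk, h1, h2, h3⟩ ⟨X', hX', Y', hY', k', hk', h1', h2', h3'⟩
    refine ⟨X + X', Eis.add_mem hX hX', Y + Y', Eis.add_mem hY hY', k + k',
      Eis.add_mem hk hk', ?_, ?_, ?_⟩
    · linear_combination h1 + h1'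
    · rw [PiLp.add_apply, h2, h2']
    · rw [PiLp.add_apply, h3, h3']; ring
  zero_mem' := ⟨0, Eis.zero_mem, 0, Eis.zero_mem, 0, Eis.zero_mem, by simp, by simp, by simp⟩
  neg_mem' := by
    rintro x ⟨X, hX, Y, hY, k, hk, h1, h2, h3⟩
    refine ⟨-X, Eis.neg_mem hX, -Y, Eis.neg_mem hY, -k, Eis.neg_mem hk, ?_, ?_, ?_⟩
    · linear_combination -h1
    · rw [PiLp.neg_apply, h2]
    · rw [PiLp.neg_apply, h3]; ring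

/-- the Hermitian lattice `√-3 O ⊕ D₄ ⊕ O` -/
noncomputable def MD4 : AddSubgroup (V 2) where
  carrier := {x | (∃ a ∈ Eis, x.1 = th * a) ∧ x.2.1 ∈ D4L ∧ x.2.2 ∈ Eis}
  add_mem' := by
    rintro x y ⟨⟨a, ha, h1⟩, h2, h3⟩ ⟨⟨a', ha', h1'⟩, h2', h3'⟩
    exact ⟨⟨a + a', Eis.add_mem ha ha', by rw [Prod.fst_add, h1, h1']; ring⟩,
      D4L.add_mem h2 h2', Eis.add_mem h3 h3'⟩
  zero_mem' := ⟨⟨0, Eis.zero_mem, by simp⟩, D4L.zero_mem, Eis.zero_mem⟩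
  neg_mem' := by
    rintro x ⟨⟨a, ha, h1⟩, h2, h3⟩
    exact ⟨⟨-a, Eis.neg_mem ha, by rw [Prod.fst_neg, h1]; ring⟩, D4L.neg_mem h2, Eis.neg_mem h3⟩

/-- all Heisenberg translations of the lattice `MD4` -/
def ND4 (a : ℂ) (b : E 2) : Prop :=
  (∃ a' ∈ Eis, a = th * a') ∧ b ∈ D4L ∧ 2 * a.re + ‖b‖ ^ 2 = 0

/-- a basis of `D4L` -/
noncomputable def bD4 : Fin (2 * 2) → E 2 :=
  ![!₂[1, (Real.sqrt 2 : ℂ)], !₂[om, (Real.sqrt 2 : ℂ) * om], !₂[th, 0], !₂[th * om, 0]]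

/-- the weight -/
noncomputable def psD4 (r : ℝ) : ℝ := max 0 (6 / 5 - 3 / (2 * r))

/-! ## lattice facts -/

def ST_DLAT : Prop := IsLat MD4

def ST_DCUSP : Prop := Cusp ND4 bD4 (Real.sqrt 3) ∧ ∀ a b, ND4 a b → T a b ∈ Gam MD4

def ST_DDUAL : Prop := DualMin bD4 (2 / 3)

/-- an orthogonal frame: `eD i` has squared norm `3 / 2`, and `D4L` consists of the integral
combinations with even coordinate sum -/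
noncomputable def eD : Fin 4 → E 2 :=
  ![!₂[0, (Real.sqrt 2 : ℂ) * th / 2], !₂[-1, (Real.sqrt 2 : ℂ) / 2],
    !₂[-om, (Real.sqrt 2 : ℂ) / 2], !₂[1 + om, (Real.sqrt 2 : ℂ) / 2]]

/-- the coordinates of a vector in the frame `eD` -/
noncomputable def xc (ζ : E 2) (i : Fin 4) : ℝ := 2 / 3 * (inner ℂ (eD i) ζ).re

/-- coordinates: orthogonality, expansion, and description of `D4L` -/
def ST_DISO : Prop :=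
  (∀ i j, (inner ℂ (eD i) (eD j)).re = if i = j then 3 / 2 else 0) ∧
  (∀ ζ : E 2, ζ = ∑ i, xc ζ i • eD i) ∧
  (∀ ζ : E 2, 2 / 3 * ‖ζ‖ ^ 2 = ∑ i, xc ζ i ^ 2) ∧
  (∀ ζ : E 2, ζ ∈ D4L ↔ ∃ n : Fin 4 → ℤ, (∀ i, xc ζ i = n i) ∧ Even (∑ i, n i))

/-- the cusp vectors seen in coordinates; `w' = √-3 w` for `w` in the orbit lies in `MD4` -/
def ST_DORB : Prop :=
  (∀ w ∈ Orb MD4, th • w ∈ MD4 ∧ herm w w = 0 ∧
    (w.2.2 = 0 → ∃ s ∈ Eis, ‖s‖ = 1 ∧ w = s • w0)) ∧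
  (∀ (a : ℂ) (b : E 2), ND4 a b → ∀ s ∈ Eis, ‖s‖ = 1 →
    ∃ w ∈ Orb MD4, th • w = s • ((a, b, 1) : V 2)) ∧
  (∀ s ∈ Eis, ‖s‖ = 1 → s • (w0 : V 2) ∈ Orb MD4)

/-! ## combinatorics of the root lattice `D₄ = {b ∈ ℤ⁴ : ∑ bᵢ even}` -/

/-- squared distance -/
def sq (z : Fin 4 → ℝ) (b : Fin 4 → ℤ) : ℝ := ∑ i, (z i - b i) ^ 2

def ST_GRAM : Prop := ∀ (z : Fin 4 → ℝ) (S : Finset (Fin 4 → ℤ)), (∀ b ∈ S, Even (∑ i, b i)) →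
  ∀ α l : ℝ, 0 ≤ α → α ≤ 2 * l →
    ∑ b ∈ S, (α - l * sq z b) ≤ max α (max (4 * α - 3 * l) (8 * α - 8 * l))

def ST_GRAM4 : Prop := ∀ (z : Fin 4 → ℝ) (S : Finset (Fin 4 → ℤ)),
  (∀ b ∈ S, (∀ i, Even (b i)) ∨ ∀ i, Odd (b i)) → (∀ b ∈ S, Even (∑ i, b i)) →
  ∀ α l : ℝ, 0 ≤ α → α ≤ 2 * l → ∑ b ∈ S, (α - l * sq z b) ≤ α

/-- every point lies in a Delaunay cell (regular cross-polytope) of `D₄` -/
def ST_CELL : Prop := ∀ z : Fin 4 → ℝ, ∃ (v : Fin 4 × Bool → Fin 4 → ℤ) (x : Fin 4 → ℝ),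
  Function.Injective v ∧ (∀ j, Even (∑ i, v j i)) ∧ ∑ i, |x i| ≤ 1 ∧
  ∀ i, sq z (v (i, true)) = 1 + ∑ j, x j ^ 2 - 2 * x i ∧
    sq z (v (i, false)) = 1 + ∑ j, x j ^ 2 + 2 * x i

/-! ## upper bounds -/

/-- the cusps of type 1 -/
def ST_T1 : Prop := ∀ (y : ℝ) (z : Fin 4 → ℝ) (v : (Fin 4 → ℤ) → ℝ), 1 ≤ y →
  ∀ G : Finset ((Fin 4 → ℤ) × ℤ), (∀ g ∈ G, Even (∑ i, g.1 i)) →
    ∑ g ∈ G, max 0 (6 / 5 - (3 * (sq z g.1 + y) ^ 2 + 4 * (v g.1 + 2 * g.2) ^ 2) / (16 * y))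
      ≤ 594 / 125

/-- the cusps of type 3 -/
def ST_T3 : Prop := ∀ (y : ℝ) (z : Fin 4 → ℝ) (v : (Fin 4 → ℤ) → ℝ), 1 ≤ y →
  ∀ G : Finset ((Fin 4 → ℤ) × ℤ), (∀ g ∈ G, Even (∑ i, g.1 i)) →
    ∑ g ∈ G, max 0 (6 / 5 - 3 * (3 * (sq z g.1 / 3 + y) ^ 2 + 4 * (v g.1 + 2 * g.2) ^ 2)
      / (16 * y)) ≤ if y < 11 / 5 then 8 / 5 else 0

/-- the cusps of type 4 -/
def ST_T4 : Prop := ∀ (y : ℝ) (z : Fin 4 → ℝ) (v : (Fin 4 → ℤ) → ℝ), 1 ≤ y →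
  ∀ G : Finset ((Fin 4 → ℤ) × ℤ), (∀ g ∈ G, Even (∑ i, g.1 i)) →
    (∀ g ∈ G, (∀ i, Even (g.1 i)) ∨ ∀ i, Odd (g.1 i)) →
    ∑ g ∈ G, max 0 (6 / 5 - 4 * (3 * (sq z g.1 / 4 + y) ^ 2 + 4 * (v g.1 + g.2) ^ 2)
      / (16 * y)) ≤ if y < 8 / 5 then 9 / 20 else 0

/-- the upper bound for the sum over all cusps (each cusp has six vectors) -/
def ST_DUP : Prop := ∀ p ∈ SD 2, 3 / 2 ≤ hgt p →
  ∑' w : Orb MD4, ENNReal.ofReal (psD4 (1 / uval w p)) ≤ ENNReal.ofReal 45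

/-! ## reduction and lower bound -/

def ST_DRED : Prop := ∀ p ∈ SD 2, ∃ γ ∈ Gam MD4,
  (∀ w ∈ Orb MD4, 1 / hgt (act γ p) ≤ uval w (act γ p)) ∧ act γ p ∈ Sieg 2 2 (3 / 2)

/-- two central translates together -/
def ST_LOWF : Prop := ∀ A K v : ℝ, 12 ≤ A → 0 ≤ K → K ≤ 80 → |v| ≤ 1 →
  7 / 5 * max 0 (K / (A + 4) - 1)
    ≤ max 0 (K / (A + 4 * v ^ 2) - 1) + max 0 (K / (A + 4 * (2 - |v|) ^ 2) - 1)

/-- the lower bound in a Delaunay cell -/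
def ST_LOWX : Prop := ∀ (y : ℝ) (x : Fin 4 → ℝ), 1 ≤ y → y ≤ 5 / 2 → ∑ i, |x i| ≤ 1 →
  (∀ i, 2 ≤ 1 + ∑ j, x j ^ 2 - 2 * |x i| + y) →
  171 / 100 ≤ (6 / 5 * y - 1) + ∑ i, (7 / 5 * max 0 (96 / 5 * y /
      (3 * (1 + ∑ j, x j ^ 2 - 2 * x i + y) ^ 2 + 4) - 1)
    + 7 / 5 * max 0 (96 / 5 * y / (3 * (1 + ∑ j, x j ^ 2 + 2 * x i + y) ^ 2 + 4) - 1))

def ST_DLOW : Prop := ∀ p ∈ SD 2, 3 / 2 ≤ hgt p → (∀ w ∈ Orb MD4, 1 / hgt p ≤ uval w p) →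
  ENNReal.ofReal (9 * 45) ≤
    ∑' w : Orb MD4, ENNReal.ofReal (muP 2 (2 / 3) (Real.sqrt 3) (1 / uval w p) *
      psD4 (1 / uval w p))

/-! ## assembly -/

def ST_DWTS : Prop := Covers MD4 2 (3 / 2) ∧ Wts MD4 (2 / 3) (Real.sqrt 3) psD4 45 9

end Pool.Agent.Helper19.Un
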