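import Pool.Agent.Helper13.Un.DIFF
import Pool.Agent.Helper13.Un.WC
import Pool.Agent.Helper51.Un.GD
import Pool.Agent.Helper41.Un.MP
import Pool.Agent.Helper41.Un.LF
import Pool.Agent.Helper19.Un.ORBC
import Pool.Agent.Helper22.Un.KAP
import Pool.Agent.Helper22.Un.PARS
import Pool.Agent.Helper22.Un.POI
import Pool.Agent.Helper74.Un.DIV
import Pool.Agent.Helper74.Un.LAND
import Pool.Agent.Helper84.Un.MODE
import Pool.Agent.Helper7.Un.ABEL
import Pool.Agent.Helper59.Un.GREEN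
import Pool.Agent.Helper16.Un.UZ
import Pool.Agent.Helper75.Un.EN
import Pool.Agent.Helper27.Un.STRIP
import Pool.Agent.Helper39.Un.MAIN
import Pool.Agent.Helper96.Un.DLAT
import Pool.Agent.Helper96.Un.DORB
import Pool.Agent.Helper70.Un.DCUSP
import Pool.Agent.Helper70.Un.DWTS
import Pool.Agent.Helper70.Un.LOWF
import Pool.Agent.Helper27.Un.DDUAL
import Pool.Agent.Helper63.Un.DISO
import Pool.Agent.Helper44.Un.GRAM
import Pool.Agent.Helper44.Un.T1
import Pool.Agent.Helper24.Un.GRAM4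
import Pool.Agent.Helper24.Un.T3
import Pool.Agent.Helper24.Un.DRED
import Pool.Agent.Helper37.Un.T4
import Pool.Agent.Helper20.Un.CELL
import Pool.Agent.Helper30.Un.LOWX
import Pool.Agent.Helper82.Un.DLOW
import Pool.Agent.Helper50.Un.DUP

set_option autoImplicit false

/-!
# Assembly of the modules
-/

namespace Pool.Agent.Helper19.Un

theorem main_all0 (h1 : ST_CELLD) (h2 : ST_CELLI) (h3 : ST_UNF) : ST_MAIN := by
  have hUZ : ST_UZ := st_UZ st_CD st_GD st_MP st_LF
  exact st_MAIN (st_KAP st_CD st_LF) h3 (st_STRIP st_LF h3 h1 h2) st_GREEN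
    (st_WC st_CD st_GD st_MP) (st_EN hUZ st_ORBC)
    (st_POI st_MODE st_PARS (st_LAND st_DIV) st_ABEL) st_GS st_CD st_ME

theorem dwts_all : ST_DWTS := by
  have hO : ST_DORB := st_DORB st_DCUSP
  exact st_DWTS (st_DRED st_DLAT st_DCUSP st_DISO hO st_CELL)
    (st_DUP st_DISO hO (st_T1 st_GRAM) (st_T3 st_GRAM) (st_T4 st_GRAM4))
    (st_DLOW st_DISO hO st_CELL st_LOWF st_LOWX)

end Pool.Agent.Helper19.Un
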