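import Mathlib

set_option autoImplicit false

/-!
# Complex hyperbolic space of dimension `m + 1` (Siegel domain model) and lattices in `U(m+1,1)`

Points are pairs `(z, ζ)` with `z` a complex number and `ζ ∈ ℂ^m`; complex hyperbolic space is the
Siegel domain `2 Re z + |ζ|² < 0`.
-/

namespace Pool.Agent.Helper19.Un

open MeasureTheory
open scoped ComplexConjugate

/-- `ℂ^m` with its Hermitian inner product -/
abbrev E (m : ℕ) := EuclideanSpace ℂ (Fin m)

/-- `ℂ × ℂ^m × ℂ` -/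
abbrev V (m : ℕ) := ℂ × E m × ℂ

/-- ambient space `ℂ × ℂ^m` of the Siegel domain -/
abbrev Pt (m : ℕ) := ℂ × E m

/-- the Hermitian form `x₁ y₃* + ⟨x₂, y₂⟩ + x₃ y₁*` of signature `(m+1,1)` -/
noncomputable def herm {m : ℕ} (x y : V m) : ℂ :=
  x.1 * conj y.2.2 + inner ℂ y.2.1 x.2.1 + x.2.2 * conj y.1

/-- the height `-(2 Re z + |ζ|²)` -/
noncomputable def hgt {m : ℕ} (p : Pt m) : ℝ := -(2 * p.1.re + ‖p.2‖ ^ 2)

/-- the Siegel domain (complex hyperbolic space) -/
def SD (m : ℕ) : Set (Pt m) := {p | 0 < hgt p}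

/-- the vector `(z, ζ, 1)` -/
def vec {m : ℕ} (p : Pt m) : V m := (p.1, p.2, 1)

/-- the point `(x₁ / x₃, x₂ / x₃)` -/
noncomputable def pnt {m : ℕ} (x : V m) : Pt m := (x.1 / x.2.2, (1 / x.2.2) • x.2.1)

/-- the projective action of a linear transformation -/
noncomputable def act {m : ℕ} (g : V m ≃ₗ[ℂ] V m) (p : Pt m) : Pt m := pnt (g (vec p))

/-- the unitary group `U(m+1,1)` of the Hermitian form -/
def UG (m : ℕ) : Subgroup (V m ≃ₗ[ℂ] V m) where
  carrier := {g | ∀ x y, herm (g x) (g y) = herm x y}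
  mul_mem' := by
    rintro g h hg hh x y
    rw [LinearEquiv.mul_apply, LinearEquiv.mul_apply, hg, hh]
  one_mem' := fun x y => rfl
  inv_mem' := by
    rintro g hg x y
    have key : ∀ x, g (g⁻¹ x) = x := fun x => g.apply_symm_apply x
    rw [← hg (g⁻¹ x) (g⁻¹ y), key, key]

/-- the unitary automorphisms of an additive group `M` of vectors -/
def Gam {m : ℕ} (M : AddSubgroup (V m)) : Subgroup (V m ≃ₗ[ℂ] V m) where
  carrier := {g | g ∈ UG m ∧ ∀ x, g x ∈ M ↔ x ∈ M}
  mul_mem' := by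
    rintro g h ⟨hg1, hg2⟩ ⟨hh1, hh2⟩
    refine ⟨(UG m).mul_mem hg1 hh1, fun x => ?_⟩
    rw [LinearEquiv.mul_apply, hg2, hh2]
  one_mem' := ⟨(UG m).one_mem, fun x => Iff.rfl⟩
  inv_mem' := by
    rintro g ⟨hg1, hg2⟩
    refine ⟨(UG m).inv_mem hg1, fun x => ?_⟩
    have key : g (g⁻¹ x) = x := g.apply_symm_apply x
    rw [← hg2 (g⁻¹ x), key]

/-- the unipotent transformation `(z, ζ) ↦ (z - ⟨ζ, b⟩ + a, ζ + b)`; it is unitary if
`2 Re a + |b|² = 0` (a Heisenberg translation) -/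
noncomputable def T {m : ℕ} (a : ℂ) (b : E m) : V m ≃ₗ[ℂ] V m where
  toFun x := (x.1 - inner ℂ b x.2.1 + a * x.2.2, x.2.1 + x.2.2 • b, x.2.2)
  map_add' x y := by
    refine Prod.ext ?_ (Prod.ext ?_ ?_)
    · simp only [Prod.fst_add, Prod.snd_add, inner_add_right]; ring
    · simp only [Prod.fst_add, Prod.snd_add, add_smul]; abel
    · simp
  map_smul' c x := by
    refine Prod.ext ?_ (Prod.ext ?_ ?_)
    · simp only [Prod.smul_fst, Prod.smul_snd, smul_eq_mul, RingHom.id_apply, inner_smul_right]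
      ring
    · simp only [Prod.smul_fst, Prod.smul_snd, smul_eq_mul, RingHom.id_apply, smul_add, mul_smul]
    · simp
  invFun x := (x.1 + inner ℂ b x.2.1 - (a + (‖b‖ : ℂ) ^ 2) * x.2.2, x.2.1 - x.2.2 • b, x.2.2)
  left_inv x := by
    refine Prod.ext ?_ (Prod.ext ?_ ?_)
    · simp only [inner_add_right, inner_smul_right, inner_self_eq_norm_sq_to_K]
      simp only [Complex.coe_algebraMap]
      ring
    · simp
    · rfl
  right_inv x := by
    refine Prod.ext ?_ (Prod.ext ?_ ?_)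
    · simp only [inner_sub_right, inner_smul_right, inner_self_eq_norm_sq_to_K]
      simp only [Complex.coe_algebraMap]
      ring
    · simp
    · rfl

/-- directional derivative in the constant direction `e` -/
noncomputable def pd {m : ℕ} (e : Pt m) (f : Pt m → ℂ) (p : Pt m) : ℂ := fderiv ℝ f p e

/-- the `k`-th coordinate vector of `ℂ^m` -/
noncomputable def ek {m : ℕ} (k : Fin m) : E m := EuclideanSpace.single k 1

/-- derivative along the horizontal field `(-ζₖ*, eₖ)` -/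
noncomputable def XX {m : ℕ} (k : Fin m) (f : Pt m → ℂ) (p : Pt m) : ℂ :=
  fderiv ℝ f p (-conj (p.2 k), ek k)

/-- derivative along the horizontal field `(-i ζₖ*, i eₖ)` -/
noncomputable def YY {m : ℕ} (k : Fin m) (f : Pt m → ℂ) (p : Pt m) : ℂ :=
  fderiv ℝ f p (-(Complex.I * conj (p.2 k)), Complex.I • ek k)

/-- the Laplacian of complex hyperbolic `(m+1)`-space, normalised so that the holomorphic sectional
curvature is `-4` (the powers `hgt ^ s` are eigenfunctions with eigenvalue `4 s (s - (m + 1))`) -/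
noncomputable def lap {m : ℕ} (f : Pt m → ℂ) (p : Pt m) : ℂ :=
  (hgt p : ℂ) ^ 2 * (pd (1, 0) (pd (1, 0) f) p + pd (Complex.I, 0) (pd (Complex.I, 0) f) p)
    + 2 * (m : ℂ) * (hgt p : ℂ) * pd (1, 0) f p
    + (hgt p : ℂ) * ∑ k : Fin m, (XX k (XX k f) p + YY k (YY k f) p)

end Pool.Agent.Helper19.Un
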