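import Pool.Agent.Helper19.Un.Alg

set_option autoImplicit false

/-!
# Statements of the modules of the generic analysis
-/

namespace Pool.Agent.Helper19.Un

open MeasureTheory Topology
open scoped ComplexConjugate

/-! ## DIFF -/

/-- smoothness of the action -/
def ST_CD : Prop := ∀ (m : ℕ) (g : V m ≃ₗ[ℂ] V m), g ∈ UG m → ContDiffOn ℝ 2 (act g) (SD m)

/-- measurability of the action -/
def ST_ME : Prop := ∀ (m : ℕ) (g : V m ≃ₗ[ℂ] V m), Measurable (act g)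

/-- isometry: the bilinear gradient product is invariant -/
def ST_GD : Prop := ∀ (m : ℕ) (g : V m ≃ₗ[ℂ] V m), g ∈ UG m → ∀ p ∈ SD m, ∀ f h : Pt m → ℂ,
  DifferentiableAt ℝ f (act g p) → DifferentiableAt ℝ h (act g p) →
    gdot (fun q => f (act g q)) (fun q => h (act g q)) p = gdot f h (act g p)

/-- isometry: the squared gradient is invariant -/
def ST_GS : Prop := ∀ (m : ℕ) (g : V m ≃ₗ[ℂ] V m), g ∈ UG m → ∀ p ∈ SD m, ∀ f : Pt m → ℂ,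
  DifferentiableAt ℝ f (act g p) → gsq (fun q => f (act g q)) p = gsq f (act g p)

/-- invariance of the hyperbolic measure -/
def ST_MP : Prop := ∀ (m : ℕ) (g : V m ≃ₗ[ℂ] V m), g ∈ UG m →
  MeasurePreserving (act g) (hyp m) (hyp m)

/-! ## DISC -/

/-- a cusp vector has inverse height `1 / hgt` or at least `c * hgt` -/
def ST_ORBC : Prop := ∀ (m : ℕ) (M : AddSubgroup (V m)), IsLat M → ∃ c : ℝ, 0 < c ∧
  ∀ w ∈ Orb M, ∀ p ∈ SD m, uval w p = 1 / hgt p ∨ c * hgt p ≤ uval w p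

def ST_CNT : Prop := ∀ (m : ℕ) (M : AddSubgroup (V m)), IsLat M → Countable (Gam M)

def ST_LF : Prop := ∀ (m : ℕ) (M : AddSubgroup (V m)), IsLat M → ∀ p ∈ SD m, ∀ C a : ℝ, 0 < a →
  ∃ U ∈ 𝓝 p, U ⊆ SD m ∧ {γ : Gam M | ∃ q ∈ U, act γ q ∈ Sieg m C a}.Finite

def ST_KAP : Prop := ∀ (m : ℕ) (M : AddSubgroup (V m)), IsLat M → ∀ C a : ℝ, 0 < a →
  Covers M C a → ∃ (κ : Pt m → ℝ) (C' a' : ℝ), Kap M κ C' a'

/-! ## UNF -/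

def ST_UNF : Prop := ∀ (m : ℕ) (M : AddSubgroup (V m)), IsLat M → ∀ (κ : Pt m → ℝ) (C a : ℝ),
  Kap M κ C a → ∀ (η F : Pt m → ENNReal), Measurable η → Measurable F →
    (∀ γ ∈ Gam M, ∀ p ∈ SD m, F (act γ p) = F p) →
    ∫⁻ p, η p * F p ∂(hyp m)
      = ∫⁻ p, ENNReal.ofReal (κ p) * (∑' γ : Gam M, η (act γ p)) * F p ∂(hyp m)

/-- the half-open cell is a fundamental domain of the group of Heisenberg translations -/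
def ST_CELLD : Prop := ∀ (m : ℕ) (N : ℂ → E m → Prop) (β : Fin (2 * m) → E m) (c : ℝ),
  Cusp N β c → ∀ p ∈ SD m, ∃! ab : ℂ × E m, N ab.1 ab.2 ∧
    ∃ (x : (Fin (2 * m) → ℝ) × ℝ) (u : ℝ), (∀ i, x.1 i ∈ Set.Ico (0 : ℝ) 1) ∧
      x.2 ∈ Set.Ico (0 : ℝ) 1 ∧ 0 < u ∧ act (T ab.1 ab.2) p = cellpt β c x u

/-- the hyperbolic measure in the coordinates `(x, u)` -/
def ST_CELLI : Prop := ∀ (m : ℕ) (β : Fin (2 * m) → E m) (c : ℝ), 0 < c →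
  LinearIndependent ℝ β → ∃ K : ENNReal, K ≠ 0 ∧ K ≠ ⊤ ∧ ∀ G : Pt m → ENNReal, Measurable G →
    ∫⁻ p in {p : Pt m | ∃ (x : (Fin (2 * m) → ℝ) × ℝ) (u : ℝ), (∀ i, x.1 i ∈ Set.Ico (0 : ℝ) 1) ∧
      x.2 ∈ Set.Ico (0 : ℝ) 1 ∧ 0 < u ∧ p = cellpt β c x u}, G p ∂(hyp m)
      = K * ∫⁻ u in Set.Ioi (0 : ℝ), cellInt β c G u * ENNReal.ofReal ((u ^ (m + 2))⁻¹)

/-- strip unfolding (cusp cell), with an unspecified constant `K` -/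
def ST_STRIP : Prop := ∀ (m : ℕ) (M : AddSubgroup (V m)), IsLat M → ∀ (κ : Pt m → ℝ) (C a : ℝ),
  Kap M κ C a → ∀ (N : ℂ → E m → Prop) (β : Fin (2 * m) → E m) (c : ℝ), Cusp N β c →
    (∀ a b, N a b → T a b ∈ Gam M) →
    ∃ K : ENNReal, K ≠ 0 ∧ K ≠ ⊤ ∧ ∀ (ψ : ℝ → ENNReal) (F : Pt m → ENNReal), Measurable ψ →
      Measurable F → (∀ γ ∈ Gam M, ∀ p ∈ SD m, F (act γ p) = F p) →
      ∫⁻ u in Set.Ioi (0 : ℝ), ψ u * cellInt β c F u * ENNReal.ofReal ((u ^ (m + 2))⁻¹)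
        = K * ∫⁻ p, ENNReal.ofReal (κ p) * (∑' w : Orb M, ψ (1 / uval w p)) * F p ∂(hyp m)

/-! ## ENERGY -/

/-- Green's formula -/
def ST_GREEN : Prop := ∀ (m : ℕ) (u : Pt m → ℂ), ContDiffOn ℝ 2 u (SD m) → ∀ lam : ℂ,
  (∀ p ∈ SD m, lap u p = -lam * u p) → WeakEig lam u

def ST_WC : Prop := ∀ (m : ℕ) (g : V m ≃ₗ[ℂ] V m), g ∈ UG m → ∀ u : Pt m → ℂ,
  ContDiffOn ℝ 1 u (SD m) → ∀ lam : ℂ, WeakEig lam u → WeakEig lam (fun p => u (act g p))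

/-- the first order operator `η ↦ ∑ conj u_i <grad u_i, grad η>` -/
noncomputable def Gop {m : ℕ} {ι : Type} [Fintype ι] (u : ι → Pt m → ℂ) (v : Pt m → ℂ)
    (p : Pt m) : ℂ := ∑ i, conj (u i p) * gdot (u i) v p

/-- the `κ`-gradient term integrates to zero against an invariant weight -/
def ST_UZ : Prop := ∀ (m : ℕ) (M : AddSubgroup (V m)), IsLat M → ∀ (κ : Pt m → ℝ) (C a : ℝ),
  Kap M κ C a → ∀ (ι : Type) (_ : Fintype ι) (u : ι → Pt m → ℂ), Sys M ι u →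
    ∀ (w : Pt m → ℝ) (ρ : ℝ), Continuous w → (∀ p, w p ≠ 0 → hgt p ≤ ρ) →
    (∀ γ ∈ Gam M, ∀ p ∈ SD m, a ≤ hgt p → a ≤ hgt (act γ p) → w (act γ p) = w p) →
    ∫ p, (w p : ℂ) * Gop u (fun q => (κ q : ℂ)) p ∂(hyp m) = 0

def ST_EN : Prop := ∀ (m : ℕ) (M : AddSubgroup (V m)), IsLat M → ∀ (κ : Pt m → ℝ) (C a : ℝ),
  Kap M κ C a → ∀ (ι : Type) (_ : Fintype ι) (u : ι → Pt m → ℂ), Sys M ι u → ∀ lam : ℂ,
    (∀ i, WeakEig lam (u i)) →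
    ∫⁻ p, ENNReal.ofReal (κ p) * ENNReal.ofReal (∑ i, ‖u i p‖ ^ 2) ∂(hyp m) ≠ ⊤ →
    (∫⁻ p, ENNReal.ofReal (κ p) * ENNReal.ofReal (∑ i, gsq (u i) p) ∂(hyp m)
      ≤ ENNReal.ofReal lam.re *
        ∫⁻ p, ENNReal.ofReal (κ p) * ENNReal.ofReal (∑ i, ‖u i p‖ ^ 2) ∂(hyp m)) ∧
    (lam.im = 0 ∨
      ∫⁻ p, ENNReal.ofReal (κ p) * ENNReal.ofReal (∑ i, ‖u i p‖ ^ 2) ∂(hyp m) = 0)

/-! ## HEIS -/

/-- invariance under the group of Heisenberg translations -/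
def Per {m : ℕ} (N : ℂ → E m → Prop) (φ : Pt m → ℂ) : Prop :=
  ∀ a b, N a b → ∀ p ∈ SD m, φ (act (T a b) p) = φ p

/-- the integral of a horizontal derivative over the cell vanishes -/
def ST_DIV : Prop := ∀ (m : ℕ) (N : ℂ → E m → Prop) (β : Fin (2 * m) → E m) (c : ℝ),
  Cusp N β c → ∀ φ : Pt m → ℂ, ContDiffOn ℝ 1 φ (SD m) → Per N φ → ∀ u : ℝ, 0 < u →
    ∀ k : Fin m,
    ∫ x in Set.Icc (0 : (Fin (2 * m) → ℝ) × ℝ) 1, XX k φ (cellpt β c x u) = 0 ∧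
    ∫ x in Set.Icc (0 : (Fin (2 * m) → ℝ) × ℝ) 1, YY k φ (cellpt β c x u) = 0

/-- the `n`-th Fourier mode in the central direction -/
noncomputable def mode {m : ℕ} (c : ℝ) (n : ℤ) (φ : Pt m → ℂ) (p : Pt m) : ℂ :=
  ∫ t in (0 : ℝ)..1, φ (p.1 + (c * t : ℝ) * Complex.I, p.2) *
    Complex.exp (-(2 * Real.pi * n * t : ℝ) * Complex.I)

/-- the Fourier modes are smooth and invariant, and derivatives commute with them -/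
def ST_MODE : Prop := ∀ (m : ℕ) (N : ℂ → E m → Prop) (β : Fin (2 * m) → E m) (c : ℝ),
  Cusp N β c → ∀ φ : Pt m → ℂ, ContDiffOn ℝ 2 φ (SD m) → Per N φ → ∀ n : ℤ,
    ContDiffOn ℝ 2 (mode c n φ) (SD m) ∧ Per N (mode c n φ) ∧
    ∀ p ∈ SD m, pd (Complex.I, 0) (mode c n φ) p
        = ((2 * Real.pi * n / c : ℝ) : ℂ) * Complex.I * mode c n φ p ∧
      mode c n (pd (Complex.I, 0) φ) p = pd (Complex.I, 0) (mode c n φ) p ∧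
      ∀ k : Fin m, mode c n (XX k φ) p = XX k (mode c n φ) p ∧
        mode c n (YY k φ) p = YY k (mode c n φ) p

/-- Parseval in the central direction -/
def ST_PARS : Prop := ∀ (m : ℕ) (N : ℂ → E m → Prop) (β : Fin (2 * m) → E m) (c : ℝ),
  Cusp N β c → ∀ φ : Pt m → ℂ, ContinuousOn φ (SD m) → Per N φ → ∀ u : ℝ, 0 < u →
    cellInt β c (fun p => ENNReal.ofReal (‖φ p‖ ^ 2)) u
      = ∑' n : ℤ, cellInt β c (fun p => ENNReal.ofReal (‖mode c n φ p‖ ^ 2)) u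

/-- the lowest Landau level bound for the `n`-th mode -/
def ST_LAND : Prop := ∀ (m : ℕ) (N : ℂ → E m → Prop) (β : Fin (2 * m) → E m) (c : ℝ),
  Cusp N β c → ∀ φ : Pt m → ℂ, ContDiffOn ℝ 2 φ (SD m) → Per N φ → ∀ n : ℤ,
    (∀ p ∈ SD m, pd (Complex.I, 0) φ p = ((2 * Real.pi * n / c : ℝ) : ℂ) * Complex.I * φ p) →
    ∀ u : ℝ, 0 < u → ∀ k : Fin m,
    ENNReal.ofReal (4 * Real.pi * |(n : ℝ)| / c) *
        cellInt β c (fun p => ENNReal.ofReal (‖φ p‖ ^ 2)) u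
      ≤ cellInt β c (fun p => ENNReal.ofReal (‖XX k φ p‖ ^ 2 + ‖YY k φ p‖ ^ 2)) u

/-- Wirtinger inequality for functions which do not depend on the central variable -/
def ST_ABEL : Prop := ∀ (m : ℕ) (N : ℂ → E m → Prop) (β : Fin (2 * m) → E m) (c δ : ℝ),
  Cusp N β c → DualMin β δ → ∀ φ : Pt m → ℂ, ContDiffOn ℝ 2 φ (SD m) → Per N φ →
    (∀ p ∈ SD m, pd (Complex.I, 0) φ p = 0) → ∀ u : ℝ, 0 < u →
    ∫ x in Set.Icc (0 : (Fin (2 * m) → ℝ) × ℝ) 1, φ (cellpt β c x u) = 0 →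
    ENNReal.ofReal (4 * Real.pi ^ 2 * δ) *
        cellInt β c (fun p => ENNReal.ofReal (‖φ p‖ ^ 2)) u
      ≤ cellInt β c (fun p => ENNReal.ofReal (∑ k : Fin m, (‖XX k φ p‖ ^ 2 + ‖YY k φ p‖ ^ 2))) u

/-- Poincaré inequality on the Heisenberg nilmanifold -/
def ST_POI : Prop := ∀ (m : ℕ) (N : ℂ → E m → Prop) (β : Fin (2 * m) → E m) (c δ : ℝ),
  Cusp N β c → DualMin β δ → ∀ φ : Pt m → ℂ, ContDiffOn ℝ 2 φ (SD m) →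
    (∀ a b, N a b → ∀ p ∈ SD m, φ (act (T a b) p) = φ p) → ∀ u : ℝ, 0 < u →
    ∫ x in Set.Icc (0 : (Fin (2 * m) → ℝ) × ℝ) 1, φ (cellpt β c x u) = 0 →
    ENNReal.ofReal (muP m δ c u) * cellInt β c (fun p => ENNReal.ofReal (‖φ p‖ ^ 2)) u
      ≤ cellInt β c (fun p => ENNReal.ofReal (gh φ p)) u

/-! ## MAIN -/

/-- weights for the energy method -/
structure Wts {m : ℕ} (M : AddSubgroup (V m)) (δ c : ℝ) (ψ : ℝ → ℝ) (Mx κ : ℝ) : Prop where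
  meas : Measurable ψ
  nonneg : ∀ r, 0 ≤ ψ r
  pos : 0 < Mx
  up : ∀ p ∈ SD m, ∑' w : Orb M, ENNReal.ofReal (ψ (1 / uval w p)) ≤ ENNReal.ofReal Mx
  low : ∀ᵐ p ∂(hyp m), ENNReal.ofReal (κ * Mx) ≤
    ∑' w : Orb M, ENNReal.ofReal (muP m δ c (1 / uval w p) * ψ (1 / uval w p))

def ST_MAIN : Prop := ∀ (m : ℕ) (M : AddSubgroup (V m)), IsLat M →
  ∀ (N : ℂ → E m → Prop) (β : Fin (2 * m) → E m) (c δ : ℝ), Cusp N β c → DualMin β δ → 0 ≤ δ →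
  (∀ a b, N a b → T a b ∈ Gam M) → ∀ C0 a0 : ℝ, 0 < a0 → Covers M C0 a0 →
  ∀ (ψ : ℝ → ℝ) (Mx κ : ℝ), 0 ≤ κ → Wts M δ c ψ Mx κ →
  ∀ Δ : Subgroup (V m ≃ₗ[ℂ] V m), Δ.relIndex (Gam M) ≠ 0 →
  ∀ f : Pt m → ℂ, ContDiffOn ℝ 2 f (SD m) → (∀ γ ∈ Δ, ∀ p ∈ SD m, f (act γ p) = f p) →
  (∃ B : ℝ, ∀ p ∈ SD m, ‖f p‖ ≤ B) →
  ∀ lam : ℂ, (∀ p ∈ SD m, lap f p = -lam * f p) →
  (∀ γ ∈ Gam M, ∀ a b, N a b → γ * T a b * γ⁻¹ ∈ Δ) →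
  (∀ γ ∈ Gam M, ∀ r : ℝ, 0 < r →
    ∫ x in Set.Icc (0 : (Fin (2 * m) → ℝ) × ℝ) 1, f (act γ (cellpt β c x r)) = 0) →
  (∃ p ∈ SD m, f p ≠ 0) → ∃ l : ℝ, κ ≤ l ∧ lam = l

end Pool.Agent.Helper19.Un
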